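import Pool.Agent.QSX.StmtsE

/-!
# Squad QSX, row EMB (helper36): algebraic embeddings are quasi-isometric embeddings
-/

set_option autoImplicit false

namespace Pool.Agent.QSX.H36

open Matrix Finset Pool.Agent.QSX

theorem sz_nonneg {m : ℕ} (x : Matrix (Fin m) (Fin m) ℝ) : 0 ≤ sz x :=
  Finset.sum_nonneg fun _ _ => Finset.sum_nonneg fun _ _ => abs_nonneg _

/-- the basic estimate -/
theorem emb_est (k K K' a b u v l l' : ℝ) (hk : 1 ≤ k) (hK : 0 < K) (hK' : 0 < K')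
    (hu : 0 ≤ u) (hv : 0 ≤ v) (huv : v ≤ k * u) (hab : b ≤ k * a)
    (h1 : a ≤ l) (h2 : Real.log (1 + u) ≤ K * (l + 1))
    (h3 : l' ≤ b + K' * (Real.log (1 + v) + 1)) :
    l' ≤ (k + K * K') * l + (K + K') * (Real.log k + K + K' + 1) := by
  have h0 : 0 < k := by linarith
  have h4 : Real.log (1 + v) ≤ Real.log k + Real.log (1 + u) := by
    rw [← Real.log_mul h0.ne' (by positivity)]
    refine Real.log_le_log (by positivity) ?_
    nlinarith
  have h5 : 0 ≤ Real.log k := Real.log_nonneg hk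
  have h6 : K' * (Real.log (1 + v) + 1) ≤ K' * (Real.log k + K * (l + 1) + 1) :=
    mul_le_mul_of_nonneg_left (by linarith) hK'.le
  have h7 : k * a ≤ k * l := mul_le_mul_of_nonneg_left h1 h0.le
  have h8 : 0 ≤ K * (Real.log k + K + K' + 1) := by positivity
  have h9 : 0 ≤ K' * K' := by positivity
  nlinarith

theorem emb (h1 : EhmStmt) (h2 : EnqStmt) (h3 : PlnStmt) : EmbStmt := by
  intro X Y hXY
  obtain ⟨F⟩ := hXY.data
  obtain ⟨k, hk, hT, hP⟩ := h2 X Y F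
  obtain ⟨K, hK, hX⟩ := h3 X.m
  obtain ⟨K', hK', hY⟩ := h3 Y.m
  set A : ℝ := k + K * K' with hA
  set B : ℝ := (K + K') * (Real.log k + K + K' + 1) with hB
  have hlogk : 0 ≤ Real.log k := Real.log_nonneg hk
  have hA1 : 1 ≤ A := by
    have : 0 < K * K' := by positivity
    linarith
  have hB0 : 0 ≤ B := by positivity
  have key : ∀ p q : X.Pt, 0 ≤ Y.dist (F.map p) (F.map q) ∧
      Y.dist (F.map p) (F.map q) ≤ A * X.dist p q + B ∧
      X.dist p q ≤ A * Y.dist (F.map p) (F.map q) + B := by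
    intro p q
    obtain ⟨r, hr1, hr2⟩ := h1 X Y F p q
    obtain ⟨a1, a2, a3⟩ := hX (r.1 : Matrix (Fin X.m) (Fin X.m) ℝ) (r.2 : Fin X.m → ℝ)
      (X.su _ r.1.2)
    obtain ⟨b1, b2, b3⟩ := hY (F.T r.1) (F.P r.2) (Y.su _ (F.Tn r.1))
    obtain ⟨t1, t2⟩ := hT r.1
    obtain ⟨p1, p2⟩ := hP r.2
    have e1 : X.dist p q = len (ue (r.1 : Matrix (Fin X.m) (Fin X.m) ℝ) * ud (r.2 : Fin X.m → ℝ)) := by
      rw [Dat.dist, hr1]; rfl
    have e2 : Y.dist (F.map p) (F.map q) = len (ue (F.T r.1) * ud (F.P r.2)) := by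
      rw [Dat.dist, hr2]; rfl
    rw [e1, e2]
    refine ⟨le_trans (norm_nonneg _) b1, ?_, ?_⟩
    · exact emb_est k K K' _ _ _ _ _ _ hk hK hK' (sz_nonneg _) (sz_nonneg _) t1 p1 a1 a2 b3
    · have := emb_est k K' K _ _ _ _ _ _ hk hK' hK (sz_nonneg _) (sz_nonneg _) t2 p2 b1 b2 a3
      rw [hA, hB]
      calc _ ≤ _ := this
        _ = _ := by ring
  have fin : ∀ d d' : ℝ, d ≤ A * d' + B → d / A - B ≤ d' := by
    intro d d' h
    have hA0 : 0 < A := by linarith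
    have h4 : d / A ≤ d' + B / A := by
      rw [div_le_iff₀ hA0, add_mul, div_mul_cancel₀ _ hA0.ne']
      linarith
    have h5 : B / A ≤ B := div_le_self hB0 hA1
    linarith
  refine ⟨⟨F.map, A, B, hA1, hB0, fun p q => ⟨fin _ _ (key p q).2.2, (key p q).2.1⟩⟩, ?_⟩
  intro E _
  refine ⟨fun p => (F.map p, 0), A, B, hA1, hB0, fun p q => ?_⟩
  have hd : pdist Y E (F.map p, 0) (F.map q, 0) = Y.dist (F.map p) (F.map q) := by
    rw [pdist, sub_self, norm_zero, zero_pow two_ne_zero, add_zero, Real.sqrt_sq (key p q).1]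
  rw [hd]
  exact ⟨fin _ _ (key p q).2.2, (key p q).2.1⟩

end Pool.Agent.QSX.H36
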