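import Pool.Agent.QSX.StmtsG

/-!
# Squad QSX, row NVL (helper36): the near vertical lemma
-/

set_option autoImplicit false

namespace Pool.Agent.QSX.H36

open Matrix Finset Pool.Agent.QSX

theorem ue_inv {m : ℕ} {x : Matrix (Fin m) (Fin m) ℝ} (hx : SU x) : (ue x)⁻¹ = ue (-x) := by
  apply Units.ext
  rw [ue_inv_val hx, ue_val hx.neg]

theorem ue_zero {m : ℕ} : ue (0 : Matrix (Fin m) (Fin m) ℝ) = 1 := by
  apply Units.ext
  rw [ue_val SU.zero, mexp_zero, Units.val_one]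

theorem nvl (h1 : NvsStmt) : NvlStmt := by
  intro D S V _ _ _ P hP hR φ hφ hstep
  have key : ∀ k : ℕ, ∃ (ψ : ℕ → (Matrix (Fin D.m) (Fin D.m) ℝ)ˣ)
      (g ζ : ℕ → V → (Matrix (Fin D.m) (Fin D.m) ℝ)ˣ),
      (∀ s, ∃ y ∈ D.n, ψ s = ue y) ∧ (∀ s a, ∃ y ∈ D.n, g s a = ue y) ∧
      (∀ s a, ∃ y ∈ D.nk (k + 1), ζ s a = ue y) ∧ (∀ s a, (φ s a)⁻¹ * ψ s = g s a * ζ s a) ∧
      S.Cls P {a | ‖a‖ ≤ 1} (fun s a => (g s a : Matrix (Fin D.m) (Fin D.m) ℝ)) := by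
    intro k
    induction k with
    | zero =>
      refine ⟨fun _ => 1, fun _ _ => 1, fun s a => (φ s a)⁻¹, fun s => ⟨0, D.n.zero_mem, ue_zero.symm⟩,
        fun s a => ⟨0, D.n.zero_mem, ue_zero.symm⟩, fun s a => ?_, fun s a => ?_, ?_⟩
      · obtain ⟨y, hy, h⟩ := hφ s a
        refine ⟨-y, ⟨D.n.neg_mem hy, fun i l hl => ?_⟩, ?_⟩
        · rw [Matrix.neg_apply, D.su y hy i l (by rw [Fin.le_def]; omega), neg_zero]
        · change (φ s a)⁻¹ = _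
          rw [h, ue_inv (D.su y hy)]
      · change (φ s a)⁻¹ * 1 = 1 * (φ s a)⁻¹
        rw [mul_one, one_mul]
      · intro ε _
        refine Filter.Eventually.of_forall fun s a _ i l hil => ?_
        change |(1 : Matrix (Fin D.m) (Fin D.m) ℝ) i l| ≤ _
        rw [Matrix.one_apply_ne hil.ne, abs_zero]
        exact (Real.exp_pos _).le
    | succ k ih =>
      obtain ⟨ψ, g, ζ, hψ, hg, hζ, he, hc⟩ := ih
      exact h1 D S V P hP hR φ hφ hstep (k + 1) (Nat.succ_le_succ (Nat.zero_le k)) ψ g ζ hψ hg hζ he hc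
  obtain ⟨ψ, g, ζ, hψ, hg, hζ, he, hc⟩ := key D.m
  refine ⟨ψ, hψ, ?_⟩
  have h2 : (fun s a => (((φ s a)⁻¹ * ψ s : (Matrix (Fin D.m) (Fin D.m) ℝ)ˣ) : Matrix _ _ ℝ))
      = fun s a => (g s a : Matrix (Fin D.m) (Fin D.m) ℝ) := by
    funext s a
    obtain ⟨y, hy, h⟩ := hζ s a
    have hy0 : y = 0 := by
      ext i l
      exact hy.2 i l (by have := i.2; have := l.2; omega)
    rw [he s a, h, hy0, ue_zero, mul_one]
  rw [h2]
  exact hc

end Pool.Agent.QSX.H36
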